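import Mathlib
import Pool.Agent.H29.PlanarSeries

set_option autoImplicit false

/-!
# Rearrangements of planar series with two Levy vectors: a counterexample

We answer Q1 in the negative: there is a conditionally convergent series in the plane whose sum
range and achievement set are the whole plane and which has exactly two Levy vectors, and a
permutation of the indices for which the achievement set is not the whole plane.

The series: level `k` consists of `q k` groups of the six vectors
`(2⁻ᵏ, 1/q k), (2⁻ᵏ, 0), (2⁻ᵏ, 0), (-2⁻ᵏ, 0), (-2⁻ᵏ, -1/q k), (-2⁻ᵏ, 0)`, with `q` growing very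
fast. In the bad order, in each level the vectors with positive first coordinate come before those
with negative first coordinate. By the Cauchy criterion a convergent subseries then uses at most
`2ᵏ` vectors of each kind at level `k`, for large `k`, and so its second coordinate is so well
approximated by fractions with denominator `q k` that it cannot be `√2`.
-/

open Filter Topology Finset

namespace Pool.Agent.Results.MP_89b5f7_an.Counterexample

/-- The Euclidean plane. -/
abbrev E2 : Type := EuclideanSpace ℝ (Fin 2)

/-- The series with terms `x n` converges, and the series of norms diverges. -/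
def CondConvergent (x : ℕ → E2) : Prop :=
  (∃ s : E2, Tendsto (fun N => ∑ n ∈ range N, x n) atTop (𝓝 s)) ∧ ¬ Summable (fun n => ‖x n‖)

/-- The sum range: the set of sums of all convergent rearrangements. -/
def sumRange (x : ℕ → E2) : Set E2 :=
  {s | ∃ σ : Equiv.Perm ℕ, Tendsto (fun N => ∑ n ∈ range N, x (σ n)) atTop (𝓝 s)}

/-- The achievement set: the set of sums of all convergent subseries, terms taken in the given
order. -/
def achievementSet (x : ℕ → E2) : Set E2 :=
  {s | ∃ ε : ℕ → ℝ, (∀ n, ε n = 0 ∨ ε n = 1) ∧
    Tendsto (fun N => ∑ n ∈ range N, ε n • x n) atTop (𝓝 s)}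

/-- The Levy vectors: unit vectors `u` such that for every `ε > 0` the norms of the terms lying
in the cone `⟨u, v⟩ ≥ (1 - ε) ‖u‖ ‖v‖` have divergent sum. -/
def levyVectors (x : ℕ → E2) : Set E2 :=
  {u | ‖u‖ = 1 ∧ ∀ ε : ℝ, 0 < ε → ¬ Summable (fun n =>
    open Classical in if (1 - ε) * ‖u‖ * ‖x n‖ ≤ inner ℝ u (x n) then ‖x n‖ else 0)}

/-- **Negative answer to Q1.** -/
theorem result : ∃ x : ℕ → E2, CondConvergent x ∧ sumRange x = Set.univ ∧
    achievementSet x = Set.univ ∧ (levyVectors x).ncard = 2 ∧
    ∃ σ : Equiv.Perm ℕ, achievementSet (fun n => x (σ n)) ≠ Set.univ := by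
  refine ⟨H29.PlanarSeries.ser, ⟨⟨0, H29.PlanarSeries.ser_hasSum⟩,
    H29.PlanarSeries.not_summable_type 0 (by norm_num) _ (fun g => rfl)⟩, ?_, ?_, ?_,
    H29.PlanarSeries.badPerm, ?_⟩
  · exact Set.eq_univ_of_forall fun a => H29.PlanarSeries.rearrange a
  · exact Set.eq_univ_of_forall fun a => H29.PlanarSeries.achieve a
  · have h : levyVectors H29.PlanarSeries.ser =
        {H29.PlanarSeries.e1, -H29.PlanarSeries.e1} := H29.PlanarSeries.levy
    rw [h, Set.ncard_pair]
    intro hne
    have h1 := congrFun (congrArg (WithLp.ofLp) hne) 0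
    simp [H29.PlanarSeries.e1] at h1
    norm_num at h1
  · intro h
    have h1 : (!₂[0, Real.sqrt 2] : E2) ∈
        achievementSet (fun n => H29.PlanarSeries.ser (H29.PlanarSeries.badPerm n)) := by
      rw [h]; exact Set.mem_univ _
    obtain ⟨ε, hε, hlim⟩ := h1
    exact H29.PlanarSeries.bad ε hε _ hlim (by simp)

end Pool.Agent.Results.MP_89b5f7_an.Counterexample
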